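import Mathlib
import Pool.Agent.H577R3.RM.Asm

/-!
# Random metabelian groups are bi-interpretable with arithmetic

For fixed `m, n` with `m ≤ n - 2` the proportion of the `m`-tuples of freely reduced words of length
`ℓ` in `n` letters (and their inverses) for which the metabelian group with these relators is
bi-interpretable (with parameters) with the standard model of arithmetic tends to `1`.
-/

set_option autoImplicit false

namespace Pool.Agent.Results.MP_d3a22b_lc.RandomMetabelian

open Filter Topology Pool.Agent.H577R3 Pool.Agent.H577R3.RM

/-- For fixed `m`, `n` with `m + 2 ≤ n`, the metabelian group `F_n / (⟨⟨r_1, …, r_m⟩⟩ F_n'')` with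
`r_1, …, r_m` independent uniformly random freely reduced words of length `ℓ` is bi-interpretable
with `(ℕ; +, ·, 0, 1)` with probability tending to `1` as `ℓ → ∞`. -/
theorem result : ∀ m n : ℕ, m + 2 ≤ n →
    Tendsto (fun ℓ : ℕ => (Nat.card {r : Fin m → RW n ℓ //
      Bi.BiInterpNat (MG (fun j => wd (r j).1))} : ℝ) / Nat.card (Fin m → RW n ℓ)) atTop (𝓝 1) :=
  fun m n h => fin_main probA critA m n h

end Pool.Agent.Results.MP_d3a22b_lc.RandomMetabelian
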